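import Pool.Agent.Helper63.UNR.Trail

/-!
# Project UN (MP_e3e162_pr): comparison of two trail expansions, abstract form
-/

set_option autoImplicit false
set_option linter.unusedSectionVars false

namespace Pool.Agent.Helper63.UNR

open Finset Pool.Agent.Helper30.RCU

open Classical

universe u v

variable {V : Type u} {ι : Type v} {φ : ι → Sym2 V} {p p' : ι → ℝ} {q : ℝ}

/-- Comparison of two trail expansions: `I` is an invariant of the states `(T, F, v)`. -/
theorem trail_compare (hp : ∀ e, 0 ≤ p e) (hp1 : ∀ e, p e ≤ 1)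
    (hq : 1 ≤ q) (hq2 : q ≤ 2) (E Gh : Finset ι) (g : V) (π A B : ℝ) (M : ℕ)
    (hπ : 0 ≤ π) (hπ1 : π ≤ 1) (hA : 0 ≤ A) (hB : 0 ≤ B) (I : Finset ι → Finset ι → V → Prop)
    (hp' : ∀ e, 0 ≤ p' e) (hp1' : ∀ e, p' e ≤ 1)
    (hI : ∀ T F v, I T F v → F ⊆ T ∧ T ⊆ E)
    (hrule : ∀ T F v, I T F v → v ≠ g →
      (∀ e ∈ E \ T, v ∉ φ e) ∨
      (∃ f ∈ E \ T, f ∈ Gh ∧ φ f = s(v, g) ∧ π ≤ p f ∧ I (insert f T) F v ∧
        I (insert f T) (insert f F) v ∧ I (insert f T) (insert f F) g) ∨
      (∃ f ∈ E \ T, f ∉ Gh ∧ ∃ v', φ f = s(v, v') ∧ I (insert f T) F v ∧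
        I (insert f T) (insert f F) v ∧ I (insert f T) (insert f F) v'))
    (hleaf : ∀ T F, I T F g → (T ∩ Gh).card ≤ M + 1 →
      A * TW φ p q g E T F g ≤ B * TW φ p' q g E T F g) :
    ∀ (k : ℕ) (T F : Finset ι) (v : V), (E \ T).card ≤ k → I T F v → (T ∩ Gh).card ≤ M + 1 →
      A * TW φ p q g E T F v ≤ B * TW φ p' q g E T F v +
        (1 - π / 2) ^ (M + 1 - (T ∩ Gh).card) * (A * TW φ p q g E T F v) := by
  have hr0 : 0 ≤ 1 - π / 2 := by linarith
  have hWG : ∀ T F v, 0 ≤ A * TW φ p q g E T F v := fun T F v =>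
    mul_nonneg hA (TW_nonneg hp hp1 hq g E T F v)
  have hWH : ∀ T F v, 0 ≤ B * TW φ p' q g E T F v := fun T F v =>
    mul_nonneg hB (TW_nonneg hp' hp1' hq g E T F v)
  intro k
  induction k with
  | zero =>
    intro T F v hk hs hn
    by_cases hv : v = g
    · subst hv
      have h1 := hleaf T F hs hn
      have h2 := mul_nonneg (pow_nonneg hr0 (M + 1 - (T ∩ Gh).card)) (hWG T F v)
      linarith
    · have hE : E \ T = ∅ := by rw [← card_eq_zero]; omega
      have h0 : TW φ p q g E T F v = 0 := TW_dead hv (by rw [hE]; simp)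
      have h0' : TW φ p' q g E T F v = 0 := TW_dead hv (by rw [hE]; simp)
      rw [h0, h0']; simp
  | succ k ih =>
    intro T F v hk hs hn
    by_cases hv : v = g
    · subst hv
      have h1 := hleaf T F hs hn
      have h2 := mul_nonneg (pow_nonneg hr0 (M + 1 - (T ∩ Gh).card)) (hWG T F v)
      linarith
    obtain ⟨hFT, hTE⟩ := hI T F v hs
    have hcard : ∀ f ∈ E \ T, (E \ insert f T).card ≤ k := by
      intro f hf
      have h1 := congrArg Finset.card (sdiff_insert_eq hf)
      rw [card_insert_of_notMem not_mem_sdiff_insert] at h1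
      omega
    rcases hrule T F v hs hv with h | ⟨f, hf, hfG, hφ, hπf, hs1, hs2, hs3⟩ |
      ⟨f, hf, hfG, v', hφ, hs1, hs2, hs3⟩
    · have h0 : TW φ p q g E T F v = 0 := TW_dead hv h
      have h0' : TW φ p' q g E T F v = 0 := TW_dead hv h
      rw [h0, h0']; simp
    · -- ghost edge
      have hfT : f ∉ T := (mem_sdiff.mp hf).2
      have hins : (insert f T ∩ Gh).card = (T ∩ Gh).card + 1 := by
        rw [insert_inter_of_mem hfG, card_insert_of_notMem]
        exact fun h => hfT (mem_inter.mp h).1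
      by_cases hn1 : (T ∩ Gh).card = M + 1
      · rw [hn1, Nat.sub_self, pow_zero, one_mul]
        have := hWH T F v
        linarith
      have hn2 : (insert f T ∩ Gh).card ≤ M + 1 := by rw [hins]; omega
      have e1 := TW_step (φ := φ) (p := p) hq (g := g) hFT hf hφ
      have e2 := TW_step (φ := φ) (p := p') hq (g := g) hFT hf hφ
      have l1 := ih (insert f T) F v (hcard f hf) hs1 hn2
      have l2 := ih (insert f T) (insert f F) v (hcard f hf) hs2 hn2
      have l3 := hleaf (insert f T) (insert f F) hs3 hn2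
      have l4 := TW_ghost (φ := φ) hp hp1 hq hq2 (g := g) hFT hf v
      rw [hins] at l1 l2
      have hm : M + 1 - (T ∩ Gh).card = (M + 1 - ((T ∩ Gh).card + 1)) + 1 := by omega
      rw [hm]
      generalize M + 1 - ((T ∩ Gh).card + 1) = m at l1 l2 ⊢
      have hTW := TW_nonneg (φ := φ) hp hp1 hq g E T F v
      generalize TW φ p q g E (insert f T) F v = x1 at *
      generalize TW φ p q g E (insert f T) (insert f F) v = x2 at *
      generalize TW φ p q g E (insert f T) (insert f F) g = x3 at *
      generalize TW φ p' q g E (insert f T) F v = y1 at *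
      generalize TW φ p' q g E (insert f T) (insert f F) v = y2 at *
      generalize TW φ p' q g E (insert f T) (insert f F) g = y3 at *
      rw [e2]
      have l5 : x1 + x2 ≤ (1 - π / 2) * TW φ p q g E T F v := by
        have := mul_le_mul_of_nonneg_right hπf hTW
        linarith
      have l6 : (1 - π / 2) ^ m * (A * (x1 + x2)) ≤
          (1 - π / 2) ^ m * (A * ((1 - π / 2) * TW φ p q g E T F v)) :=
        mul_le_mul_of_nonneg_left (mul_le_mul_of_nonneg_left l5 hA) (pow_nonneg hr0 m)
      have l7 : (1 - π / 2) ^ (m + 1) * (A * TW φ p q g E T F v) =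
          (1 - π / 2) ^ m * (A * ((1 - π / 2) * TW φ p q g E T F v)) := by
        rw [pow_succ]; ring
      rw [l7]
      have l8 : A * TW φ p q g E T F v = A * x1 + A * x2 + A * x3 := by rw [e1]; ring
      have l9 : (1 - π / 2) ^ m * (A * (x1 + x2)) =
          (1 - π / 2) ^ m * (A * x1) + (1 - π / 2) ^ m * (A * x2) := by ring
      have l10 : B * (y1 + (y2 + y3)) = B * y1 + B * y2 + B * y3 := by ring
      rw [l10]
      linarith
    · -- lattice edge
      have hfT : f ∉ T := (mem_sdiff.mp hf).2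
      have hins : insert f T ∩ Gh = T ∩ Gh := insert_inter_of_notMem hfG
      have e1 := TW_step (φ := φ) (p := p) hq (g := g) hFT hf hφ
      have e2 := TW_step (φ := φ) (p := p') hq (g := g) hFT hf hφ
      have l1 := ih (insert f T) F v (hcard f hf) hs1 (by rw [hins]; exact hn)
      have l2 := ih (insert f T) (insert f F) v (hcard f hf) hs2 (by rw [hins]; exact hn)
      have l3 := ih (insert f T) (insert f F) v' (hcard f hf) hs3 (by rw [hins]; exact hn)
      rw [hins] at l1 l2 l3
      rw [e1, e2]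
      generalize (1 - π / 2) ^ (M + 1 - (T ∩ Gh).card) = r at *
      have h1 : ∀ a b c d : ℝ, a * (b + (c + d)) = a * b + a * c + a * d := fun a b c d => by ring
      rw [h1, h1]
      have h2 : ∀ a b c : ℝ, r * (a + b + c) = r * a + r * b + r * c := fun a b c => by ring
      rw [h2]
      linarith

end Pool.Agent.Helper63.UNR
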