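import Pool.Agent.Helper63.UNR.Trail

/-!
# Project UN (MP_e3e162_pr): comparison of two parameter choices at the end of a trail
-/

set_option autoImplicit false
set_option linter.unusedSectionVars false

namespace Pool.Agent.Helper63.UNR

open Finset Pool.Agent.Helper30.RCU

open Classical

universe u v

variable {V : Type u} {ι : Type v} {φ : ι → Sym2 V} {p p' : ι → ℝ} {q : ℝ}

/-- probability that all the edges of `T` are closed -/
noncomputable def cl (φ : ι → Sym2 V) (p : ι → ℝ) (q : ℝ) (E T : Finset ι) : ℝ :=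
  ex φ p q E (fun ω => if Disjoint ω T then 1 else 0)

lemma S_closed {E T : Finset ι} (hT : T ⊆ E) (f : Finset ι → ℝ) :
    S φ p q E (fun ω => if Disjoint ω T then f ω else 0) =
      (∏ e ∈ T, (1 - p e)) * S φ p q (E \ T) f := by
  unfold S
  rw [Finset.mul_sum]
  have h1 : E.powerset.filter (fun ω => Disjoint ω T) = (E \ T).powerset := by
    ext ω
    simp only [mem_filter, mem_powerset, Finset.subset_sdiff]
  have h2 : ∑ ω ∈ E.powerset, wt φ p q E ω * (if Disjoint ω T then f ω else 0) =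
      ∑ ω ∈ E.powerset.filter (fun ω => Disjoint ω T), wt φ p q E ω * f ω := by
    rw [Finset.sum_filter]
    refine sum_congr rfl fun ω _ => ?_
    split_ifs <;> simp
  rw [h2, h1]
  refine sum_congr rfl fun ω hω => ?_
  rw [mem_powerset, Finset.subset_sdiff] at hω
  have h3 : E \ ω = (E \ T) \ ω ∪ T := by
    ext x
    simp only [mem_sdiff, mem_union]
    constructor
    · rintro ⟨h4, h5⟩
      by_cases h6 : x ∈ T
      · exact Or.inr h6
      · exact Or.inl ⟨⟨h4, h6⟩, h5⟩
    · rintro (⟨⟨h4, _⟩, h5⟩ | h4)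
      · exact ⟨h4, h5⟩
      · exact ⟨hT h4, fun h5 => (Finset.disjoint_left.mp hω.2 h5) h4⟩
  have h4 : Disjoint ((E \ T) \ ω) T := by
    rw [Finset.disjoint_left]
    intro x hx hxT
    exact (mem_sdiff.mp (mem_sdiff.mp hx).1).2 hxT
  unfold wt
  rw [h3, Finset.prod_union h4]
  ring

lemma cl_eq {E T : Finset ι} (hT : T ⊆ E) :
    cl φ p q E T = (∏ e ∈ T, (1 - p e)) * S φ p q (E \ T) (fun _ => 1) /
      S φ p q E (fun _ => 1) := by
  unfold cl ex
  rw [S_closed hT (fun _ => 1)]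

/-- change of parameters -/
lemma S_change (hp'0 : ∀ e, 0 ≤ p' e) (hp'p : ∀ e, p' e ≤ p e) (hp1 : ∀ e, p e ≤ 1)
    (h0 : ∀ e, p' e = 0 → p e = 0) (E : Finset ι) :
    ∃ h : Finset ι → ℝ, (∀ ω, 0 ≤ h ω) ∧ Monotone h ∧
      ∀ f : Finset ι → ℝ, S φ p q E f = S φ p' q E (fun ω => h ω * f ω) := by
  set a : ι → ℝ := fun e => if p' e = 0 then 1 else p e / p' e with ha
  set b : ι → ℝ := fun e => if p' e = 1 then 1 else (1 - p e) / (1 - p' e) with hb
  have hpa : ∀ e, p e = p' e * a e := by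
    intro e
    simp only [ha]
    split_ifs with h
    · rw [h0 e h, h]; ring
    · field_simp
  have hpb : ∀ e, 1 - p e = (1 - p' e) * b e := by
    intro e
    simp only [hb]
    split_ifs with h
    · have : p e = 1 := le_antisymm (hp1 e) (h ▸ hp'p e)
      rw [this, h]; ring
    · have : 1 - p' e ≠ 0 := fun h1 => h (by linarith)
      field_simp
  have ha1 : ∀ e, 1 ≤ a e := by
    intro e
    simp only [ha]
    split_ifs with h
    · exact le_rfl
    · have : 0 < p' e := lt_of_le_of_ne (hp'0 e) (Ne.symm h)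
      rw [le_div_iff₀ this]; linarith [hp'p e]
  have hb1 : ∀ e, b e ≤ 1 := by
    intro e
    simp only [hb]
    split_ifs with h
    · exact le_rfl
    · have h2 : p' e ≤ 1 := (hp'p e).trans (hp1 e)
      have : 0 < 1 - p' e := lt_of_le_of_ne (by linarith) (fun h1 => h (by linarith))
      rw [div_le_one this]; linarith [hp'p e]
  have hb0 : ∀ e, 0 ≤ b e := by
    intro e
    simp only [hb]
    split_ifs with h
    · exact zero_le_one
    · have h2 : p' e ≤ 1 := (hp'p e).trans (hp1 e)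
      exact div_nonneg (by linarith [hp1 e]) (by linarith)
  refine ⟨fun ω => ∏ e ∈ E, (if e ∈ ω then a e else b e), ?_, ?_, ?_⟩
  · intro ω
    refine prod_nonneg fun e _ => ?_
    split_ifs
    · exact zero_le_one.trans (ha1 e)
    · exact hb0 e
  · intro ω ω' hω
    refine prod_le_prod (fun e _ => ?_) (fun e _ => ?_)
    · split_ifs
      · exact zero_le_one.trans (ha1 e)
      · exact hb0 e
    · split_ifs with h1 h2 h2
      · exact le_rfl
      · exact absurd (hω h1) h2
      · exact (hb1 e).trans (ha1 e)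
      · exact le_rfl
  · intro f
    unfold S
    refine sum_congr rfl fun ω hω => ?_
    rw [mem_powerset] at hω
    have h1 : (∏ e ∈ E, (if e ∈ ω then a e else b e)) = (∏ e ∈ ω, a e) * ∏ e ∈ E \ ω, b e := by
      rw [← Finset.prod_sdiff hω, mul_comm]
      congr 1
      · exact prod_congr rfl fun e he => by rw [if_pos he]
      · exact prod_congr rfl fun e he => by rw [if_neg (mem_sdiff.mp he).2]
    have h2 : (∏ e ∈ ω, p e) = (∏ e ∈ ω, p' e) * ∏ e ∈ ω, a e := by
      rw [← Finset.prod_mul_distrib]; exact prod_congr rfl fun e _ => hpa e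
    have h3 : (∏ e ∈ E \ ω, (1 - p e)) = (∏ e ∈ E \ ω, (1 - p' e)) * ∏ e ∈ E \ ω, b e := by
      rw [← Finset.prod_mul_distrib]; exact prod_congr rfl fun e _ => hpb e
    simp only
    unfold wt
    rw [h1, h2, h3]
    ring

section

variable (hp'0 : ∀ e, 0 ≤ p' e) (hp'p : ∀ e, p' e ≤ p e) (hp1 : ∀ e, p e ≤ 1)
  (h0 : ∀ e, p' e = 0 → p e = 0) (hq : 1 ≤ q)

include hp'0 hp'p hp1 h0 hq

/-- expectations of increasing functions increase with the parameters -/
theorem ex_par_mono (E : Finset ι) {f : Finset ι → ℝ} (hf0 : ∀ ω, 0 ≤ f ω) (hf : Monotone f) :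
    ex φ p' q E f ≤ ex φ p q E f := by
  have hp0 : ∀ e, 0 ≤ p e := fun e => (hp'0 e).trans (hp'p e)
  have hp'1 : ∀ e, p' e ≤ 1 := fun e => (hp'p e).trans (hp1 e)
  obtain ⟨h, hh0, hhm, hS⟩ := S_change (φ := φ) (q := q) hp'0 hp'p hp1 h0 E
  have h1 := S_one_pos (φ := φ) hp0 hp1 hq E
  have h2 := S_one_pos (φ := φ) hp'0 hp'1 hq E
  have h3 := S_fkg (φ := φ) hp'0 hp'1 hq E hf0 hh0 hf hhm
  unfold ex
  rw [div_le_div_iff₀ h2 h1, hS f, hS (fun _ => 1)]
  have h4 : S φ p' q E (fun ω => h ω * 1) = S φ p' q E h := by simp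
  have h5 : S φ p' q E (fun ω => h ω * f ω) = S φ p' q E (fun ω => f ω * h ω) := by
    congr 1; funext ω; ring
  rw [h4, h5]
  linarith

/-- expectations of decreasing functions decrease with the parameters -/
theorem ex_par_anti (E : Finset ι) {N : Finset ι → ℝ} (hN : Antitone N) :
    ex φ p q E N ≤ ex φ p' q E N := by
  have hp0 : ∀ e, 0 ≤ p e := fun e => (hp'0 e).trans (hp'p e)
  have hp'1 : ∀ e, p' e ≤ 1 := fun e => (hp'p e).trans (hp1 e)
  have h1 : ∀ ω, 0 ≤ N ∅ - N ω := fun ω => sub_nonneg.mpr (hN (empty_subset ω))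
  have h2 : Monotone fun ω => N ∅ - N ω := fun ω ω' h => by
    have := hN h; simp only; linarith
  have h3 := ex_par_mono (φ := φ) hp'0 hp'p hp1 h0 hq E h1 h2
  rw [ex_sub, ex_sub, ex_const hp0 hp1 hq, ex_const hp'0 hp'1 hq] at h3
  linarith

/-- removal of explored edges: `Lt` is the set of the edges whose parameter changes -/
theorem remove_le {Lt : Set ι} (hL : ∀ e, e ∉ Lt → p e = p' e) {E : Finset ι} :
    ∀ T : Finset ι, T ⊆ E →
    (∏ e ∈ T, (if e ∈ Lt then 1 - p e else 1)) * S φ p q (E \ T) (fun _ => 1) /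
        S φ p q E (fun _ => 1) ≤
      (∏ e ∈ T, (if e ∈ Lt then 1 - p' e else 1)) * S φ p' q (E \ T) (fun _ => 1) /
        S φ p' q E (fun _ => 1) := by
  have hp0 : ∀ e, 0 ≤ p e := fun e => (hp'0 e).trans (hp'p e)
  have hp'1 : ∀ e, p' e ≤ 1 := fun e => (hp'p e).trans (hp1 e)
  intro T
  induction T using Finset.induction_on with
  | empty =>
    intro _
    simp only [prod_empty, sdiff_empty, one_mul]
    rw [div_self (S_one_pos (φ := φ) hp0 hp1 hq E).ne',
      div_self (S_one_pos (φ := φ) hp'0 hp'1 hq E).ne']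
  | insert f T hf ih =>
    intro hT
    have hfE : f ∈ E \ T := mem_sdiff.mpr ⟨hT (mem_insert_self _ _), hf⟩
    have hTE : T ⊆ E := (subset_insert _ _).trans hT
    have ih := ih hTE
    have hE := sdiff_insert_eq hfE
    have e1 : ∀ r : ι → ℝ, (∀ e, 0 ≤ r e) → (∀ e, r e ≤ 1) → S φ r q (E \ T) (fun _ => 1) =
        S φ r q (E \ insert f T) (fun _ => 1) *
          ((1 - r f) + r f * ex φ r q (E \ insert f T) (theta φ q f)) := by
      intro r hr0 hr1
      have h1 := S_one_pos (φ := φ) hr0 hr1 hq (E \ insert f T)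
      rw [hE, S_insert hq not_mem_sdiff_insert]
      unfold ex
      simp only [mul_one]
      field_simp
    have e2 : ∀ r : ι → ℝ, (∀ e, 0 ≤ r e) → (∀ e, r e ≤ 1) →
        (∏ e ∈ insert f T, (if e ∈ Lt then 1 - r e else 1)) *
          S φ r q (E \ insert f T) (fun _ => 1) / S φ r q E (fun _ => 1) =
        ((∏ e ∈ T, (if e ∈ Lt then 1 - r e else 1)) * S φ r q (E \ T) (fun _ => 1) /
          S φ r q E (fun _ => 1)) *
        ((if f ∈ Lt then 1 - r f else 1) /
          ((1 - r f) + r f * ex φ r q (E \ insert f T) (theta φ q f))) := by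
      intro r hr0 hr1
      have h1 := norm_pos (φ := φ) hr0 hr1 hq (E \ insert f T) f
      have h2 := S_one_pos (φ := φ) hr0 hr1 hq E
      rw [Finset.prod_insert hf, e1 r hr0 hr1]
      field_simp
    rw [e2 p hp0 hp1, e2 p' hp'0 hp'1]
    refine mul_le_mul ih ?_ ?_ ?_
    · have n1 := norm_pos (φ := φ) hp0 hp1 hq (E \ insert f T) f
      have n2 := norm_pos (φ := φ) hp'0 hp'1 hq (E \ insert f T) f
      rw [div_le_div_iff₀ n1 n2]
      have hθ : ex φ p' q (E \ insert f T) (theta φ q f) ≤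
          ex φ p q (E \ insert f T) (theta φ q f) :=
        ex_par_mono hp'0 hp'p hp1 h0 hq _ (fun ω => (theta_pos hq f ω).le) (theta_mono hq f)
      have hθ0 : 0 ≤ ex φ p' q (E \ insert f T) (theta φ q f) :=
        ex_nonneg hp'0 hp'1 hq _ (fun ω => (theta_pos hq f ω).le)
      generalize ex φ p' q (E \ insert f T) (theta φ q f) = t' at *
      generalize ex φ p q (E \ insert f T) (theta φ q f) = t at *
      by_cases hfL : f ∈ Lt
      · rw [if_pos hfL, if_pos hfL]
        have h3 : (1 - p f) * (p' f * t') ≤ (1 - p' f) * (p f * t) := by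
          have h4 : p' f * t' ≤ p f * t := mul_le_mul (hp'p f) hθ hθ0 (hp0 f)
          have h5 : 1 - p f ≤ 1 - p' f := by linarith [hp'p f]
          exact mul_le_mul h5 h4 (mul_nonneg (hp'0 f) hθ0) (by linarith [hp'1 f])
        have h6 : (1 - p f) * (1 - p' f + p' f * t') =
            (1 - p f) * (1 - p' f) + (1 - p f) * (p' f * t') := by ring
        have h7 : (1 - p' f) * (1 - p f + p f * t) =
            (1 - p f) * (1 - p' f) + (1 - p' f) * (p f * t) := by ring
        rw [h6, h7]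
        linarith
      · rw [if_neg hfL, if_neg hfL, ← hL f hfL]
        have h3 := mul_le_mul_of_nonneg_left hθ (hp0 f)
        linarith
    · have n1 := norm_pos (φ := φ) hp0 hp1 hq (E \ insert f T) f
      refine div_nonneg ?_ n1.le
      split_ifs
      · linarith [hp1 f]
      · exact zero_le_one
    · refine div_nonneg (mul_nonneg (prod_nonneg fun e _ => ?_)
        (S_one_pos (φ := φ) hp'0 hp'1 hq _).le) (S_one_pos (φ := φ) hp'0 hp'1 hq _).le
      split_ifs
      · linarith [hp'1 e]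
      · exact zero_le_one

/-- the comparison at a leaf -/
theorem leaf_compare (hq2 : q ≤ 2) {Lt : Set ι} (hL : ∀ e, e ∉ Lt → p e = p' e) {C : ℝ}
    (hC : 1 ≤ C) (hlt : ∀ e ∈ Lt, p e < 1)
    (hodds : ∀ e ∈ Lt, p e * (1 - p' e) ≤ C * (p' e * (1 - p e)))
    {E T F T1 : Finset ι} (hTE : T ⊆ E) (hFT : F ⊆ T) (hT1 : T1 ⊆ T) (hT1L : ∀ e ∈ T1, e ∈ Lt)
    (g : V) :
    TW φ p q g E T F g / S φ p q E (fun _ => 1) * cl φ p' q E T1 ≤
      C ^ (F.filter (· ∈ Lt)).card * cl φ p q E T1 *
        (TW φ p' q g E T F g / S φ p' q E (fun _ => 1)) := by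
  have hp0 : ∀ e, 0 ≤ p e := fun e => (hp'0 e).trans (hp'p e)
  have hp'1 : ∀ e, p' e ≤ 1 := fun e => (hp'p e).trans (hp1 e)
  have hT1E : T1 ⊆ E := hT1.trans hTE
  -- abbreviations
  have hTW : ∀ r : ι → ℝ, (∀ e, 0 ≤ r e) → (∀ e, r e ≤ 1) → TW φ r q g E T F g =
      (∏ e ∈ T, (if e ∈ F then r e / 2 else 1 - r e)) *
        (ex φ r q (E \ T) (lw φ q F) * S φ r q (E \ T) (fun _ => 1)) := by
    intro r hr0 hr1
    have h1 := S_one_pos (φ := φ) hr0 hr1 hq (E \ T)
    unfold TW ex
    rw [← Finset.prod_sdiff hFT]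
    have h2 : (∏ e ∈ T \ F, (if e ∈ F then r e / 2 else 1 - r e)) = ∏ e ∈ T \ F, (1 - r e) :=
      prod_congr rfl fun e he => by rw [if_neg (mem_sdiff.mp he).2]
    have h3 : (∏ e ∈ F, (if e ∈ F then r e / 2 else 1 - r e)) = ∏ e ∈ F, (r e / 2) :=
      prod_congr rfl fun e he => by rw [if_pos he]
    have h4 : S φ r q (E \ T) (fun ω => lw φ q F ω * ind φ g g ω) =
        S φ r q (E \ T) (lw φ q F) := by
      congr 1; funext ω; rw [ind_self, mul_one]
    rw [h2, h3, h4]
    field_simp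
  have hclr : ∀ r : ι → ℝ, cl φ r q E T1 = (∏ e ∈ T1, (if e ∈ Lt then 1 - r e else 1)) *
      S φ r q (E \ T1) (fun _ => 1) / S φ r q E (fun _ => 1) := by
    intro r
    rw [cl_eq hT1E]
    congr 2
    exact prod_congr rfl fun e he => by rw [if_pos (hT1L e he)]
  have hrem := remove_le (φ := φ) hp'0 hp'p hp1 h0 hq (Lt := Lt) hL (E := E \ T1) (T \ T1)
    (sdiff_subset_sdiff hTE (le_refl _))
  have hsd : (E \ T1) \ (T \ T1) = E \ T := by
    ext x
    simp only [mem_sdiff, not_and, not_not]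
    constructor
    · rintro ⟨⟨h1, h2⟩, h3⟩
      exact ⟨h1, fun h4 => h2 (h3 h4)⟩
    · rintro ⟨h1, h2⟩
      exact ⟨⟨h1, fun h3 => h2 (hT1 h3)⟩, fun h3 => absurd h3 h2⟩
  rw [hsd] at hrem
  have hex : ex φ p q (E \ T) (lw φ q F) ≤ ex φ p' q (E \ T) (lw φ q F) :=
    ex_par_anti hp'0 hp'p hp1 h0 hq _ (lw_anti hq hq2 F)
  have hex0 : 0 ≤ ex φ p q (E \ T) (lw φ q F) :=
    ex_nonneg hp0 hp1 hq _ fun ω => (lw_pos hq F ω).le
  -- the products
  have hprod : (∏ e ∈ T, (if e ∈ F then p e / 2 else 1 - p e)) *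
      (∏ e ∈ T, (if e ∈ Lt then 1 - p' e else 1)) ≤
      C ^ (F.filter (· ∈ Lt)).card * ((∏ e ∈ T, (if e ∈ F then p' e / 2 else 1 - p' e)) *
      (∏ e ∈ T, (if e ∈ Lt then 1 - p e else 1))) := by
    have h1 : C ^ (F.filter (· ∈ Lt)).card =
        ∏ e ∈ T, (if e ∈ F then (if e ∈ Lt then C else 1) else 1) := by
      rw [← Finset.prod_sdiff hFT]
      have h2 : (∏ e ∈ T \ F, (if e ∈ F then (if e ∈ Lt then C else 1) else 1)) = 1 :=
        prod_eq_one fun e he => by rw [if_neg (mem_sdiff.mp he).2]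
      have h3 : (∏ e ∈ F, (if e ∈ F then (if e ∈ Lt then C else 1) else 1)) =
          ∏ e ∈ F, (if e ∈ Lt then C else 1) := prod_congr rfl fun e he => by rw [if_pos he]
      rw [h2, h3, one_mul, Finset.prod_ite, prod_const, prod_const_one, mul_one]
    rw [h1, ← Finset.prod_mul_distrib, ← Finset.prod_mul_distrib, ← Finset.prod_mul_distrib]
    refine prod_le_prod (fun e _ => ?_) (fun e _ => ?_)
    · have a1 := hp0 e
      have a2 := hp1 e
      have a3 := hp'1 e
      refine mul_nonneg ?_ ?_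
      · split_ifs <;> linarith
      · split_ifs <;> linarith
    · by_cases hF : e ∈ F
      · by_cases hLe : e ∈ Lt
        · simp only [hF, hLe, if_true]
          have := hodds e hLe
          linarith
        · simp only [hF, hLe, if_true, if_false]
          rw [hL e hLe]; linarith
      · by_cases hLe : e ∈ Lt
        · simp only [hF, hLe, if_true, if_false]
          linarith
        · simp only [hF, hLe, if_false]
          rw [hL e hLe]; linarith
  have hspl : ∀ r : ι → ℝ, (∏ e ∈ T, (if e ∈ Lt then 1 - r e else 1)) =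
      (∏ e ∈ T \ T1, (if e ∈ Lt then 1 - r e else 1)) *
        (∏ e ∈ T1, (if e ∈ Lt then 1 - r e else 1)) := fun r => (Finset.prod_sdiff hT1).symm
  have hpos : ∀ X : Finset ι, 0 < ∏ e ∈ X, (if e ∈ Lt then 1 - p e else 1) := by
    intro X
    refine prod_pos fun e _ => ?_
    split_ifs with h
    · linarith [hlt e h]
    · exact zero_lt_one
  have hpos' : ∀ X : Finset ι, 0 < ∏ e ∈ X, (if e ∈ Lt then 1 - p' e else 1) := by
    intro X
    refine prod_pos fun e _ => ?_
    split_ifs with h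
    · linarith [hlt e h, hp'p e]
    · exact zero_lt_one
  rw [hTW p hp0 hp1, hTW p' hp'0 hp'1, hclr p, hclr p']
  rw [hspl p, hspl p'] at hprod
  have s1 := S_one_pos (φ := φ) hp0 hp1 hq E
  have s2 := S_one_pos (φ := φ) hp'0 hp'1 hq E
  have s3 := S_one_pos (φ := φ) hp0 hp1 hq (E \ T1)
  have s4 := S_one_pos (φ := φ) hp'0 hp'1 hq (E \ T1)
  have s5 := S_one_pos (φ := φ) hp0 hp1 hq (E \ T)
  have s6 := S_one_pos (φ := φ) hp'0 hp'1 hq (E \ T)
  have b1 := hpos (T \ T1)
  have b2 := hpos' (T \ T1)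
  have b3 := hpos T1
  have b4 := hpos' T1
  have a0 : 0 ≤ ∏ e ∈ T, (if e ∈ F then p e / 2 else 1 - p e) := prod_nonneg fun e _ => by
    have a1 := hp0 e
    have a2 := hp1 e
    split_ifs <;> linarith
  have a0' : 0 ≤ ∏ e ∈ T, (if e ∈ F then p' e / 2 else 1 - p' e) := prod_nonneg fun e _ => by
    have a1 := hp'0 e
    have a2 := hp'1 e
    split_ifs <;> linarith
  have hCk : 0 ≤ C ^ (F.filter (· ∈ Lt)).card := by positivity
  generalize C ^ (F.filter (· ∈ Lt)).card = Ck at *
  generalize (∏ e ∈ T, (if e ∈ F then p e / 2 else 1 - p e)) = a at *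
  generalize (∏ e ∈ T, (if e ∈ F then p' e / 2 else 1 - p' e)) = a' at *
  generalize (∏ e ∈ T \ T1, (if e ∈ Lt then 1 - p e else 1)) = l at *
  generalize (∏ e ∈ T \ T1, (if e ∈ Lt then 1 - p' e else 1)) = l' at *
  generalize (∏ e ∈ T1, (if e ∈ Lt then 1 - p e else 1)) = m at *
  generalize (∏ e ∈ T1, (if e ∈ Lt then 1 - p' e else 1)) = m' at *
  generalize S φ p q E (fun _ => 1) = sE at *
  generalize S φ p' q E (fun _ => 1) = sE' at *
  generalize S φ p q (E \ T1) (fun _ => 1) = s1' at *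
  generalize S φ p' q (E \ T1) (fun _ => 1) = s1'' at *
  generalize S φ p q (E \ T) (fun _ => 1) = sT at *
  generalize S φ p' q (E \ T) (fun _ => 1) = sT' at *
  generalize ex φ p q (E \ T) (lw φ q F) = x at *
  generalize ex φ p' q (E \ T) (lw φ q F) = x' at *
  clear hTW hclr hspl hpos hpos' hsd
  rw [div_le_div_iff₀ s3 s4] at hrem
  have k1 : a * (x * sT) / sE * (m' * s1'' / sE') = (a * m' * x * (sT * s1'')) / (sE * sE') := by
    field_simp
  have k2 : Ck * (m * s1' / sE) * (a' * (x' * sT') / sE') =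
      (Ck * m * a' * x' * (sT' * s1')) / (sE * sE') := by
    field_simp
  rw [k1, k2]
  refine div_le_div_of_nonneg_right ?_ (mul_pos s1 s2).le
  -- hprod : a * (l' * m') <= Ck * (a' * (l * m)),  hrem : l * sT * s1'' <= l' * sT' * s1'
  have k3 : (a * (l' * m')) * (l * sT * s1'') ≤ (Ck * (a' * (l * m))) * (l' * sT' * s1') :=
    mul_le_mul hprod hrem (by positivity) (by positivity)
  have k4 : (l * l') * (a * m' * (sT * s1'')) ≤ (l * l') * (Ck * m * a' * (sT' * s1')) := by
    have r1 : (l * l') * (a * m' * (sT * s1'')) = (a * (l' * m')) * (l * sT * s1'') := by ring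
    have r2 : (l * l') * (Ck * m * a' * (sT' * s1')) =
        (Ck * (a' * (l * m))) * (l' * sT' * s1') := by ring
    rw [r1, r2]; exact k3
  have k5 : a * m' * (sT * s1'') ≤ Ck * m * a' * (sT' * s1') :=
    le_of_mul_le_mul_left k4 (mul_pos b1 b2)
  have k6 : x * (a * m' * (sT * s1'')) ≤ x' * (Ck * m * a' * (sT' * s1')) :=
    mul_le_mul hex k5 (by positivity) (hex0.trans hex)
  have r3 : a * m' * x * (sT * s1'') = x * (a * m' * (sT * s1'')) := by ring
  have r4 : Ck * m * a' * x' * (sT' * s1') = x' * (Ck * m * a' * (sT' * s1')) := by ring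
  rw [r3, r4]
  exact k6

end

end Pool.Agent.Helper63.UNR
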