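import Pool.Agent.Helper63.UNR.Abs
import Pool.Agent.Helper63.UNR.Cmp

/-!
# Project UN (MP_e3e162_pr): the finite comparison theorem TA

`p` are the larger parameters (graph `G` of the proof), `p'` the smaller ones (`H`), with the same
values on the ghost edges. `Lat` are the lattice edges, `Out` the vertices with a ghost edge `gh v`,
`Ball` the vertices without a ghost edge, `sp v` the special edge at `v`.
-/

set_option autoImplicit false
set_option linter.unusedSectionVars false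

namespace Pool.Agent.Helper63.UNR

open Finset Pool.Agent.Helper30.RCU

open Classical

universe u v

variable {V : Type u} {ι : Type v}

/-- the geometric situation of theorem TA -/
structure Geo (φ : ι → Sym2 V) (g x : V) (Lat : Finset ι) (Out Ball : Finset V) (gh sp : V → ι)
    (d : V → ℕ) (R D : ℕ) : Prop where
  dx : d x = 0
  xm : x ∈ Ball ∨ x ∈ Out
  gL : ∀ e ∈ Lat, g ∉ φ e
  lip : ∀ e ∈ Lat, ∀ a b, φ e = s(a, b) → d b ≤ d a + 1
  ver : ∀ e ∈ Lat, ∀ v ∈ φ e, v ∈ Ball ∨ v ∈ Out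
  ballR : ∀ v ∈ Ball, d v < R
  ballg : ∀ v ∈ Ball, v ≠ g
  outR : ∀ v ∈ Out, R ≤ d v
  outg : ∀ v ∈ Out, v ≠ g
  ghφ : ∀ v ∈ Out, φ (gh v) = s(v, g)
  deg : ∀ v, (Lat.filter (fun e => v ∈ φ e)).card ≤ D
  spL : ∀ v ∈ Ball, sp v ∈ Lat
  spv : ∀ v ∈ Ball, v ∈ φ (sp v)

/-- the invariant of the reachable states -/
def Inv (φ : ι → Sym2 V) (g : V) (Lat : Finset ι) (Out Ball : Finset V) (gh sp : V → ι)
    (d : V → ℕ) (R : ℕ) (T F : Finset ι) (v : V) : Prop :=
  F ⊆ T ∧ T ⊆ Lat ∪ Out.image gh ∧ ∃ U : Finset V, (∀ u ∈ U, u ∈ Ball ∨ u ∈ Out) ∧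
    (∀ e ∈ T, e ∈ Lat → ∃ u ∈ U, u ∈ φ e) ∧
    (v ≠ g → v ∈ U ∧ (∀ u ∈ U, u ≠ v → (u ∈ Out → gh u ∈ T) ∧ (u ∈ Ball → sp u ∈ T)) ∧
      ∀ j, j ≤ d v → ∃ u ∈ U, d u = j) ∧
    (v = g → (∀ u ∈ U, (u ∈ Out → gh u ∈ T) ∧ (u ∈ Ball → sp u ∈ T)) ∧
      ∀ j, j < R → ∃ u ∈ U, d u = j)

variable {φ : ι → Sym2 V} {g x : V} {Lat : Finset ι} {Out Ball : Finset V} {gh sp : V → ι}
  {d : V → ℕ} {R D : ℕ}

lemma inv_lat (hG : Geo φ g x Lat Out Ball gh sp d R D) {T F : Finset ι} {v v' : V} {f : ι}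
    (hI : Inv φ g Lat Out Ball gh sp d R T F v) (hv : v ≠ g) (hfL : f ∈ Lat)
    (hφ : φ f = s(v, v')) (h1 : v ∈ Out → gh v ∈ insert f T) (h2 : v ∈ Ball → sp v ∈ insert f T) :
    Inv φ g Lat Out Ball gh sp d R (insert f T) F v ∧
    Inv φ g Lat Out Ball gh sp d R (insert f T) (insert f F) v ∧
    Inv φ g Lat Out Ball gh sp d R (insert f T) (insert f F) v' := by
  obtain ⟨hFT, hTE, U, hU, hUe, hUv, _⟩ := hI
  obtain ⟨hvU, hUn, hUd⟩ := hUv hv
  have hTE' : insert f T ⊆ Lat ∪ Out.image gh :=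
    insert_subset (mem_union_left _ hfL) hTE
  have hvf : v ∈ φ f := hφ ▸ Sym2.mem_mk_left _ _
  have hUe' : ∀ e ∈ insert f T, e ∈ Lat → ∃ u ∈ U, u ∈ φ e := by
    intro e he heL
    rcases mem_insert.mp he with h | h
    · exact ⟨v, hvU, h ▸ hvf⟩
    · exact hUe e h heL
  have hkeep : ∀ F' : Finset ι, F' ⊆ insert f T →
      Inv φ g Lat Out Ball gh sp d R (insert f T) F' v := by
    intro F' hF'
    refine ⟨hF', hTE', U, hU, hUe', fun _ => ⟨hvU, ?_, hUd⟩, fun h => absurd h hv⟩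
    intro u hu huv
    exact ⟨fun h => mem_insert_of_mem ((hUn u hu huv).1 h),
      fun h => mem_insert_of_mem ((hUn u hu huv).2 h)⟩
  refine ⟨hkeep F (hFT.trans (subset_insert _ _)), hkeep _ (insert_subset_insert _ hFT), ?_⟩
  have hv'f : v' ∈ φ f := hφ ▸ Sym2.mem_mk_right _ _
  have hv'g : v' ≠ g := fun h => hG.gL f hfL (h ▸ hv'f)
  refine ⟨insert_subset_insert _ hFT, hTE', insert v' U, ?_, ?_, fun _ => ⟨mem_insert_self _ _,
    ?_, ?_⟩, fun h => absurd h hv'g⟩
  · intro u hu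
    rcases mem_insert.mp hu with h | h
    · rw [h]; exact hG.ver f hfL v' hv'f
    · exact hU u h
  · intro e he heL
    obtain ⟨u, hu, hue⟩ := hUe' e he heL
    exact ⟨u, mem_insert_of_mem hu, hue⟩
  · intro u hu huv
    rcases mem_insert.mp hu with h | h
    · exact absurd h huv
    · by_cases huv2 : u = v
      · rw [huv2]; exact ⟨h1, h2⟩
      · exact ⟨fun h3 => mem_insert_of_mem ((hUn u h huv2).1 h3),
          fun h3 => mem_insert_of_mem ((hUn u h huv2).2 h3)⟩
  · intro j hj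
    by_cases hjv : j ≤ d v
    · obtain ⟨u, hu, hd⟩ := hUd j hjv
      exact ⟨u, mem_insert_of_mem hu, hd⟩
    · have := hG.lip f hfL v v' hφ
      exact ⟨v', mem_insert_self _ _, by omega⟩

lemma inv_rule (hG : Geo φ g x Lat Out Ball gh sp d R D) {p : ι → ℝ} {π : ℝ}
    (hπ : ∀ u ∈ Out, π ≤ p (gh u)) (T F : Finset ι) (v : V)
    (hI : Inv φ g Lat Out Ball gh sp d R T F v) (hv : v ≠ g) :
    (∀ e ∈ (Lat ∪ Out.image gh) \ T, v ∉ φ e) ∨
    (∃ f ∈ (Lat ∪ Out.image gh) \ T, f ∈ Out.image gh ∧ φ f = s(v, g) ∧ π ≤ p f ∧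
      Inv φ g Lat Out Ball gh sp d R (insert f T) F v ∧
      Inv φ g Lat Out Ball gh sp d R (insert f T) (insert f F) v ∧
      Inv φ g Lat Out Ball gh sp d R (insert f T) (insert f F) g) ∨
    (∃ f ∈ (Lat ∪ Out.image gh) \ T, f ∉ Out.image gh ∧ ∃ v', φ f = s(v, v') ∧
      Inv φ g Lat Out Ball gh sp d R (insert f T) F v ∧
      Inv φ g Lat Out Ball gh sp d R (insert f T) (insert f F) v ∧
      Inv φ g Lat Out Ball gh sp d R (insert f T) (insert f F) v') := by
  have hGL : ∀ e ∈ Lat, e ∉ Out.image gh := by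
    intro e he h
    obtain ⟨u, hu, rfl⟩ := mem_image.mp h
    exact hG.gL _ he (by rw [hG.ghφ u hu]; exact Sym2.mem_mk_right _ _)
  by_cases hc1 : v ∈ Out ∧ gh v ∉ T
  · -- the ghost edge
    obtain ⟨hvO, hghT⟩ := hc1
    right; left
    obtain ⟨hFT, hTE, U, hU, hUe, hUv, _⟩ := hI
    obtain ⟨hvU, hUn, hUd⟩ := hUv hv
    have hmem : gh v ∈ Out.image gh := mem_image_of_mem _ hvO
    have hTE' : insert (gh v) T ⊆ Lat ∪ Out.image gh :=
      insert_subset (mem_union_right _ hmem) hTE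
    have hUe' : ∀ e ∈ insert (gh v) T, e ∈ Lat → ∃ u ∈ U, u ∈ φ e := by
      intro e he heL
      rcases mem_insert.mp he with h | h
      · exact absurd hmem (h ▸ hGL e heL)
      · exact hUe e h heL
    have hkeep : ∀ F' : Finset ι, F' ⊆ insert (gh v) T →
        Inv φ g Lat Out Ball gh sp d R (insert (gh v) T) F' v := by
      intro F' hF'
      refine ⟨hF', hTE', U, hU, hUe', fun _ => ⟨hvU, ?_, hUd⟩, fun h => absurd h hv⟩
      intro u hu huv
      exact ⟨fun h => mem_insert_of_mem ((hUn u hu huv).1 h),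
        fun h => mem_insert_of_mem ((hUn u hu huv).2 h)⟩
    refine ⟨gh v, mem_sdiff.mpr ⟨mem_union_right _ hmem, hghT⟩, hmem, hG.ghφ v hvO, hπ v hvO,
      hkeep F (hFT.trans (subset_insert _ _)), hkeep _ (insert_subset_insert _ hFT),
      insert_subset_insert _ hFT, hTE', U, hU, hUe', fun h => absurd rfl h, fun _ => ⟨?_, ?_⟩⟩
    · intro u hu
      by_cases huv : u = v
      · subst huv
        refine ⟨fun _ => mem_insert_self _ _, fun h => ?_⟩
        have h3 := hG.ballR u h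
        have h4 := hG.outR u hvO
        omega
      · exact ⟨fun h => mem_insert_of_mem ((hUn u hu huv).1 h),
          fun h => mem_insert_of_mem ((hUn u hu huv).2 h)⟩
    · intro j hj
      have := hG.outR v hvO
      exact hUd j (by omega)
  · have hc1' : v ∈ Out → gh v ∈ T := fun h => by
      by_contra h2
      exact hc1 ⟨h, h2⟩
    have hlat : ∀ f ∈ Lat \ T, v ∈ φ f → (v ∈ Ball → sp v ∈ insert f T) →
        (∃ f ∈ (Lat ∪ Out.image gh) \ T, f ∉ Out.image gh ∧ ∃ v', φ f = s(v, v') ∧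
          Inv φ g Lat Out Ball gh sp d R (insert f T) F v ∧
          Inv φ g Lat Out Ball gh sp d R (insert f T) (insert f F) v ∧
          Inv φ g Lat Out Ball gh sp d R (insert f T) (insert f F) v') := by
      intro f hf hvf hsp
      obtain ⟨hfL, hfT⟩ := mem_sdiff.mp hf
      obtain ⟨v', hφ⟩ : ∃ v', φ f = s(v, v') := hvf
      exact ⟨f, mem_sdiff.mpr ⟨mem_union_left _ hfL, hfT⟩, hGL f hfL, v', hφ,
        inv_lat hG hI hv hfL hφ (fun h => mem_insert_of_mem (hc1' h)) hsp⟩
    by_cases hc2 : v ∈ Ball ∧ sp v ∉ T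
    · right; right
      exact hlat (sp v) (mem_sdiff.mpr ⟨hG.spL v hc2.1, hc2.2⟩) (hG.spv v hc2.1)
        (fun _ => mem_insert_self _ _)
    · have hc2' : v ∈ Ball → sp v ∈ T := fun h => by
        by_contra h2
        exact hc2 ⟨h, h2⟩
      by_cases hc3 : ∀ e ∈ (Lat ∪ Out.image gh) \ T, v ∉ φ e
      · exact Or.inl hc3
      · right; right
        push Not at hc3
        obtain ⟨e, he, hve⟩ := hc3
        obtain ⟨heE, heT⟩ := mem_sdiff.mp he
        rcases mem_union.mp heE with heL | heG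
        · exact hlat e (mem_sdiff.mpr ⟨heL, heT⟩) hve (fun h => mem_insert_of_mem (hc2' h))
        · exfalso
          obtain ⟨u, hu, rfl⟩ := mem_image.mp heG
          rw [hG.ghφ u hu, Sym2.mem_iff] at hve
          rcases hve with h | h
          · subst h; exact heT (hc1' hu)
          · exact hv h

/-- Theorem TA: finite comparison of the connection probabilities to the ghost. -/
theorem TA (hG : Geo φ g x Lat Out Ball gh sp d R D) {p p' : ι → ℝ} {q C π η : ℝ}
    (hq : 1 ≤ q) (hq2 : q ≤ 2) (hp'0 : ∀ e, 0 ≤ p' e) (hp'p : ∀ e, p' e ≤ p e)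
    (hp1 : ∀ e, p e ≤ 1) {Lt : Set ι} (hLat : ∀ e ∈ Lat, e ∈ Lt) (hGh : ∀ u ∈ Out, gh u ∉ Lt)
    (hL : ∀ e, e ∉ Lt → p e = p' e) (hC : 1 ≤ C) (hlt : ∀ e ∈ Lt, p e < 1)
    (hodds : ∀ e ∈ Lt, p e * (1 - p' e) ≤ C * (p' e * (1 - p e)))
    (hπ0 : 0 ≤ π) (hπ1 : π ≤ 1) (hπ : ∀ u ∈ Out, π ≤ p (gh u)) (hη0 : 0 ≤ η) (k ρ : ℕ)
    (hk : ∀ j : Fin k, (j : ℕ) * ρ < R)
    (hη : ∀ w : Fin k → V, (∀ j, w j ∈ Ball ∧ d (w j) = j * ρ) →
      cl φ p q (Lat ∪ Out.image gh) (univ.image fun j => sp (w j)) ≤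
        η * cl φ p' q (Lat ∪ Out.image gh) (univ.image fun j => sp (w j))) (M : ℕ) :
    (1 - (1 - π / 2) ^ (M + 1)) * ex φ p q (Lat ∪ Out.image gh) (ind φ x g) ≤
      η * C ^ (D * (Ball.card + M + 1)) * ex φ p' q (Lat ∪ Out.image gh) (ind φ x g) := by
  have hp0 : ∀ e, 0 ≤ p e := fun e => (hp'0 e).trans (hp'p e)
  have hp'1 : ∀ e, p' e ≤ 1 := fun e => (hp'p e).trans (hp1 e)
  have h0 : ∀ e, p' e = 0 → p e = 0 := by
    intro e he
    by_cases hLe : e ∈ Lt
    · have h1 := hodds e hLe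
      rw [he] at h1
      have h2 := hp0 e
      have h3 : p e ≤ 0 := by linarith
      linarith
    · rw [hL e hLe, he]
  set E := Lat ∪ Out.image gh with hE
  set Gh := Out.image gh with hGhd
  have hs := S_one_pos (φ := φ) hp0 hp1 hq E
  have hs' := S_one_pos (φ := φ) hp'0 hp'1 hq E
  have hxg : x ≠ g := by
    rcases hG.xm with h | h
    · exact hG.ballg x h
    · exact hG.outg x h
  have hmain := trail_compare (φ := φ) (p := p) (p' := p') hp0 hp1 hq hq2 E Gh g π
    (1 / S φ p q E (fun _ => 1)) (η * C ^ (D * (Ball.card + M + 1)) / S φ p' q E (fun _ => 1)) M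
    hπ0 hπ1 (by positivity) (by positivity) (Inv φ g Lat Out Ball gh sp d R) hp'0 hp'1
    (fun T F v h => ⟨h.1, h.2.1⟩) (inv_rule hG hπ) ?_ E.card ∅ ∅ x (by simp) ?_ (by simp)
  · -- conclusion
    have h1 : ∀ r : ι → ℝ, TW φ r q g E ∅ ∅ x = S φ r q E (ind φ x g) := by
      intro r
      unfold TW
      simp only [prod_empty, sdiff_empty, one_mul]
      congr 1
      funext ω
      rw [lw_empty, one_mul]
    rw [h1, h1] at hmain
    have h2 : (∅ ∩ Gh).card = 0 := by simp
    rw [h2, Nat.sub_zero] at hmain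
    have h3 : ex φ p q E (ind φ x g) = 1 / S φ p q E (fun _ => 1) * S φ p q E (ind φ x g) := by
      unfold ex; ring
    have h4 : η * C ^ (D * (Ball.card + M + 1)) * ex φ p' q E (ind φ x g) =
        η * C ^ (D * (Ball.card + M + 1)) / S φ p' q E (fun _ => 1) *
          S φ p' q E (ind φ x g) := by
      unfold ex; ring
    rw [h3, h4, sub_mul, one_mul]
    linarith
  · -- the leaves
    rintro T F ⟨hFT, hTE, U, hU, hUe, _, hUg⟩ hcard
    obtain ⟨hUn, hUd⟩ := hUg rfl
    -- the number of visited vertices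
    have hUcard : U.card ≤ Ball.card + M + 1 := by
      have h1 : U ⊆ Ball ∪ U.filter (· ∈ Out) := by
        intro u hu
        rcases hU u hu with h | h
        · exact mem_union_left _ h
        · exact mem_union_right _ (mem_filter.mpr ⟨hu, h⟩)
      have h2 : (U.filter (· ∈ Out)).card ≤ (T ∩ Gh).card := by
        refine card_le_card_of_injOn gh ?_ ?_
        · intro u hu
          have hu' := mem_filter.mp (Finset.mem_coe.mp hu)
          exact Finset.mem_coe.mpr (mem_inter.mpr ⟨(hUn u hu'.1).1 hu'.2,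
            mem_image_of_mem _ hu'.2⟩)
        · intro u hu w hw huw
          have hu' := mem_filter.mp (Finset.mem_coe.mp hu)
          have hw' := mem_filter.mp (Finset.mem_coe.mp hw)
          have e1 := hG.ghφ u hu'.2
          have e2 := hG.ghφ w hw'.2
          rw [huw, e2, Sym2.eq_iff] at e1
          rcases e1 with ⟨h, _⟩ | ⟨h, _⟩
          · exact h.symm
          · exact absurd h (hG.outg w hw'.2)
      have h3 := card_le_card h1
      have h4 := card_union_le Ball (U.filter (· ∈ Out))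
      omega
    have hFcard : (F.filter (· ∈ Lt)).card ≤ D * (Ball.card + M + 1) := by
      have h1 : F.filter (· ∈ Lt) ⊆ U.biUnion fun u => Lat.filter (fun e => u ∈ φ e) := by
        intro e he
        obtain ⟨heF, heL⟩ := mem_filter.mp he
        have heT := hFT heF
        have heLat : e ∈ Lat := by
          rcases mem_union.mp (hTE heT) with h | h
          · exact h
          · obtain ⟨u, hu, rfl⟩ := mem_image.mp h
            exact absurd heL (hGh u hu)
        obtain ⟨u, hu, hue⟩ := hUe e heT heLat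
        exact mem_biUnion.mpr ⟨u, hu, mem_filter.mpr ⟨heLat, hue⟩⟩
      have h2 := (card_le_card h1).trans (card_biUnion_le_card_mul U _ D fun u _ => hG.deg u)
      calc (F.filter (· ∈ Lt)).card ≤ U.card * D := h2
        _ ≤ (Ball.card + M + 1) * D := Nat.mul_le_mul_right _ hUcard
        _ = D * (Ball.card + M + 1) := Nat.mul_comm _ _
    -- the special edges
    choose w hwU hwd using hUd
    set w' : Fin k → V := fun j => w ((j : ℕ) * ρ) (hk j) with hw'
    have hwB : ∀ j : Fin k, w' j ∈ Ball ∧ d (w' j) = j * ρ := by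
      intro j
      have h1 := hk j
      have h2 := hwd _ h1
      refine ⟨?_, h2⟩
      rcases hU _ (hwU _ h1) with h | h
      · exact h
      · exact absurd (hG.outR _ h) (by omega)
    set T1 : Finset ι := univ.image fun j => sp (w' j) with hT1
    have hT1T : T1 ⊆ T := by
      intro e he
      obtain ⟨j, _, rfl⟩ := mem_image.mp he
      exact (hUn _ (hwU _ (hk j))).2 (hwB j).1
    have hT1L : ∀ e ∈ T1, e ∈ Lt := by
      intro e he
      obtain ⟨j, _, rfl⟩ := mem_image.mp he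
      exact hLat _ (hG.spL _ (hwB j).1)
    have hcmp := leaf_compare (φ := φ) hp'0 hp'p hp1 h0 hq hq2 hL hC hlt hodds hTE hFT hT1T hT1L g
    have hcl := hη w' hwB
    have hclpos : 0 < cl φ p' q E T1 := by
      rw [cl_eq (hT1T.trans hTE)]
      refine div_pos (mul_pos (prod_pos fun e he => ?_) (S_one_pos (φ := φ) hp'0 hp'1 hq _)) hs'
      have := hlt e (hT1L e he)
      linarith [hp'p e]
    have hTW' : 0 ≤ TW φ p' q g E T F g / S φ p' q E (fun _ => 1) :=
      div_nonneg (TW_nonneg hp'0 hp'1 hq g E T F g) hs'.le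
    have hCk : C ^ (F.filter (· ∈ Lt)).card ≤ C ^ (D * (Ball.card + M + 1)) :=
      pow_le_pow_right₀ hC hFcard
    have hC0 : 0 ≤ C ^ (F.filter (· ∈ Lt)).card := by positivity
    have h5 : TW φ p q g E T F g / S φ p q E (fun _ => 1) * cl φ p' q E T1 ≤
        (η * C ^ (D * (Ball.card + M + 1)) *
          (TW φ p' q g E T F g / S φ p' q E (fun _ => 1))) * cl φ p' q E T1 := by
      refine hcmp.trans ?_
      have h6 : C ^ (F.filter (· ∈ Lt)).card * cl φ p q E T1 ≤
          C ^ (D * (Ball.card + M + 1)) * (η * cl φ p' q E T1) :=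
        mul_le_mul hCk hcl (by
          unfold cl
          exact ex_nonneg hp0 hp1 hq _ fun ω => by split_ifs <;> norm_num) (by positivity)
      have h7 := mul_le_mul_of_nonneg_right h6 hTW'
      linarith
    have h8 := le_of_mul_le_mul_right h5 hclpos
    have h9 : 1 / S φ p q E (fun _ => 1) * TW φ p q g E T F g =
        TW φ p q g E T F g / S φ p q E (fun _ => 1) := by ring
    have h10 : η * C ^ (D * (Ball.card + M + 1)) / S φ p' q E (fun _ => 1) *
        TW φ p' q g E T F g = η * C ^ (D * (Ball.card + M + 1)) *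
          (TW φ p' q g E T F g / S φ p' q E (fun _ => 1)) := by ring
    rw [h9, h10]
    exact h8
  · -- the initial state
    refine ⟨empty_subset _, empty_subset _, {x}, ?_, ?_, fun _ => ⟨mem_singleton_self _, ?_, ?_⟩,
      fun h => absurd h hxg⟩
    · intro u hu
      rw [mem_singleton.mp hu]; exact hG.xm
    · intro e he
      exact absurd he (notMem_empty _)
    · intro u hu hux
      exact absurd (mem_singleton.mp hu) hux
    · intro j hj
      rw [hG.dx] at hj
      exact ⟨x, mem_singleton_self _, by rw [hG.dx]; omega⟩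

end Pool.Agent.Helper63.UNR
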