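import Pool.Agent.Helper30.RCU.Base

/-!
# Project UN (MP_e3e162_pr): trail expansion of a connection probability

`lw φ q F ω = (2/q) ^ r(F | ω)`, `r(F | ω)` the rank of `F` after contracting `ω`. A state is a triple
`(T, F, v)` with `F ⊆ T ⊆ E` (explored edges, explored and used edges, present vertex), its weight is
`TW`. Main facts: the exact recursion `TW_step`, the ending rate `TW_ghost`.
-/

set_option autoImplicit false
set_option linter.unusedSectionVars false

namespace Pool.Agent.Helper63.UNR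

open Finset Pool.Agent.Helper30.RCU

open Classical

universe u v

variable {V : Type u} {ι : Type v} {φ : ι → Sym2 V} {p : ι → ℝ} {q : ℝ}

/-- `(2/q) ^ r(F | ω)` -/
noncomputable def lw (φ : ι → Sym2 V) (q : ℝ) (F ω : Finset ι) : ℝ :=
  (2 / q) ^ (rk φ (F ∪ ω) - rk φ ω)

lemma rk_le_insert (e : ι) (ω : Finset ι) : rk φ ω ≤ rk φ (insert e ω) := by
  obtain ⟨a, b, he⟩ := exists_mk (φ := φ) e
  by_cases h : Conn φ ω a b
  · rw [rk_insert_of_conn he h]
  · rw [rk_insert_of_not_conn he h]; omega

lemma rk_mono {A B : Finset ι} (h : A ⊆ B) : rk φ A ≤ rk φ B := by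
  have h1 : ∀ C : Finset ι, rk φ A ≤ rk φ (A ∪ C) := by
    intro C
    induction C using Finset.induction_on with
    | empty => simp
    | insert e C he ih =>
      rw [union_insert]
      exact ih.trans (rk_le_insert e _)
  have h2 := h1 B
  rwa [union_eq_right.mpr h] at h2

lemma lw_pos (hq : 1 ≤ q) (F ω : Finset ι) : 0 < lw φ q F ω := by
  unfold lw; positivity

lemma lam_one_le (hq : 1 ≤ q) (hq2 : q ≤ 2) : 1 ≤ 2 / q := by
  rw [le_div_iff₀ (by linarith)]; linarith

lemma lw_anti (hq : 1 ≤ q) (hq2 : q ≤ 2) (F : Finset ι) : Antitone (lw φ q F) := by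
  intro ω ω' h
  unfold lw
  refine pow_le_pow_right₀ (lam_one_le hq hq2) ?_
  have h1 := rk_union_sub (φ := φ) h F
  have h2 : rk φ ω ≤ rk φ (F ∪ ω) := rk_mono subset_union_right
  have h3 : rk φ ω' ≤ rk φ (F ∪ ω') := rk_mono subset_union_right
  rw [union_comm ω' F, union_comm ω F] at h1
  omega

lemma lw_mono_left (hq : 1 ≤ q) (hq2 : q ≤ 2) {F F' : Finset ι} (h : F ⊆ F') (ω : Finset ι) :
    lw φ q F ω ≤ lw φ q F' ω := by
  unfold lw
  refine pow_le_pow_right₀ (lam_one_le hq hq2) ?_
  have h1 : rk φ (F ∪ ω) ≤ rk φ (F' ∪ ω) := rk_mono (union_subset_union_left h)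
  omega

lemma lw_empty (ω : Finset ι) : lw φ q ∅ ω = 1 := by
  unfold lw; simp

/-- the pointwise identity behind the trail expansion -/
lemma lw_step (hq : 1 ≤ q) {f : ι} {v v' g : V} (hf : φ f = s(v, v')) (F ω : Finset ι) :
    theta φ q f ω * (lw φ q F (insert f ω) * ind φ v g (insert f ω)) =
      (1 / 2) * (lw φ q (insert f F) ω * ind φ v g ω) +
        (1 / 2) * (lw φ q (insert f F) ω * ind φ v' g ω) := by
  have hq0 : (0 : ℝ) < q := by linarith
  have hset : F ∪ insert f ω = insert f F ∪ ω := by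
    ext x; simp only [mem_union, mem_insert]; tauto
  have hins : ind φ v g (insert f ω) = if Conn φ ω v g ∨ Conn φ ω v' g then 1 else 0 := by
    unfold ind
    congr 1
    refine propext ?_
    rw [Finset.coe_insert, conn_insert hf]
    constructor
    · rintro (h | ⟨_, h⟩ | ⟨_, h⟩)
      · exact Or.inl h
      · exact Or.inr h
      · exact Or.inl h
    · rintro (h | h)
      · exact Or.inl h
      · exact Or.inr (Or.inl ⟨Conn.refl _ _, h⟩)
  rw [hins, theta_mk q hf]
  by_cases hc : Conn φ ω v v'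
  · have h1 : lw φ q F (insert f ω) = lw φ q (insert f F) ω := by
      unfold lw
      rw [hset, rk_insert_of_conn hf hc]
    rw [if_pos hc, h1]
    unfold ind
    by_cases hv : Conn φ ω v g
    · have hv' : Conn φ ω v' g := hc.symm.trans hv
      simp only [hv, hv', or_self, if_true]
      ring
    · have hv' : ¬ Conn φ ω v' g := fun h => hv (hc.trans h)
      simp only [hv, hv', or_self, if_false]
      ring
  · have h0 : rk φ ω + 1 ≤ rk φ (insert f F ∪ ω) := by
      rw [← rk_insert_of_not_conn hf hc]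
      refine rk_mono ?_
      intro x hx
      simp only [mem_union, mem_insert] at hx ⊢
      tauto
    have h1 : lw φ q (insert f F) ω = (2 / q) * lw φ q F (insert f ω) := by
      unfold lw
      rw [hset, rk_insert_of_not_conn hf hc, ← pow_succ']
      congr 1
      omega
    rw [if_neg hc, h1]
    unfold ind
    by_cases hv : Conn φ ω v g
    · have hv' : ¬ Conn φ ω v' g := fun h => hc (hv.trans h.symm)
      simp only [hv, hv', or_false, if_true, if_false]
      field_simp
      ring
    · by_cases hv' : Conn φ ω v' g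
      · simp only [hv, hv', or_true, if_true, if_false]
        field_simp
        ring
      · simp only [hv, hv', or_self, if_false]
        ring

/-- weight of the state `(T, F, v)` on the edge set `E` (not normalised) -/
noncomputable def TW (φ : ι → Sym2 V) (p : ι → ℝ) (q : ℝ) (g : V) (E T F : Finset ι) (v : V) : ℝ :=
  (∏ e ∈ F, (p e / 2)) * (∏ e ∈ T \ F, (1 - p e)) *
    S φ p q (E \ T) (fun ω => lw φ q F ω * ind φ v g ω)

lemma sdiff_insert_eq {E T : Finset ι} {f : ι} (hf : f ∈ E \ T) :
    E \ T = insert f (E \ insert f T) := by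
  ext x
  simp only [mem_sdiff, mem_insert, not_or] at hf ⊢
  constructor
  · rintro ⟨h1, h2⟩
    by_cases h : x = f
    · exact Or.inl h
    · exact Or.inr ⟨h1, h, h2⟩
  · rintro (h | ⟨h1, _, h3⟩)
    · subst h; exact hf
    · exact ⟨h1, h3⟩

lemma not_mem_sdiff_insert {E T : Finset ι} {f : ι} : f ∉ E \ insert f T := by
  simp

/-- the exact recursion -/
lemma TW_step (hq : 1 ≤ q) {g : V} {E T F : Finset ι} (hFT : F ⊆ T) {f : ι} (hf : f ∈ E \ T)
    {v v' : V} (hφ : φ f = s(v, v')) :
    TW φ p q g E T F v = TW φ p q g E (insert f T) F v +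
      (TW φ p q g E (insert f T) (insert f F) v + TW φ p q g E (insert f T) (insert f F) v') := by
  have hfT : f ∉ T := (mem_sdiff.mp hf).2
  have hfF : f ∉ F := fun h => hfT (hFT h)
  have h1 : insert f T \ F = insert f (T \ F) := insert_sdiff_of_notMem T hfF
  have h2 : insert f T \ insert f F = T \ F := by
    ext x
    simp only [mem_sdiff, mem_insert, not_or]
    constructor
    · rintro ⟨h | h, h3, h4⟩
      · exact absurd h h3
      · exact ⟨h, h4⟩
    · rintro ⟨h, h3⟩
      exact ⟨Or.inr h, fun h4 => hfT (h4 ▸ h), h3⟩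
  have h3 : f ∉ T \ F := fun h => hfT (mem_sdiff.mp h).1
  unfold TW
  rw [h1, h2, Finset.prod_insert h3, Finset.prod_insert hfF, sdiff_insert_eq hf,
    S_insert hq not_mem_sdiff_insert]
  have h4 : S φ p q (E \ insert f T)
      (fun ω => theta φ q f ω * (lw φ q F (insert f ω) * ind φ v g (insert f ω))) =
      (1 / 2) * S φ p q (E \ insert f T) (fun ω => lw φ q (insert f F) ω * ind φ v g ω) +
      (1 / 2) * S φ p q (E \ insert f T) (fun ω => lw φ q (insert f F) ω * ind φ v' g ω) := by
    rw [← S_mul, ← S_mul, ← S_add]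
    congr 1
    funext ω
    exact lw_step hq hφ F ω
  rw [h4]
  ring

lemma TW_nonneg (hp : ∀ e, 0 ≤ p e) (hp1 : ∀ e, p e ≤ 1) (hq : 1 ≤ q) (g : V)
    (E T F : Finset ι) (v : V) : 0 ≤ TW φ p q g E T F v := by
  unfold TW
  refine mul_nonneg (mul_nonneg (prod_nonneg fun e _ => ?_) (prod_nonneg fun e _ => ?_))
    (S_nonneg hp hp1 hq _ fun ω => mul_nonneg (lw_pos hq _ _).le (ind_nonneg _ _ _))
  · have := hp e; linarith
  · have := hp1 e; linarith

/-- if all the edges at `v ≠ g` are explored, the weight vanishes -/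
lemma TW_dead {g : V} {E T F : Finset ι} {v : V} (hvg : v ≠ g) (h : ∀ e ∈ E \ T, v ∉ φ e) :
    TW φ p q g E T F v = 0 := by
  unfold TW
  have : S φ p q (E \ T) (fun ω => lw φ q F ω * ind φ v g ω) = 0 := by
    unfold S
    refine sum_eq_zero fun ω hω => ?_
    have h1 : ¬ Conn φ ω v g :=
      not_conn_of_isolated (fun e he => h e (mem_powerset.mp hω he)) hvg
    simp [ind, h1]
  rw [this, mul_zero]

/-- sum over the states of one unexplored edge -/
lemma S_lw_insert_le (hp : ∀ e, 0 ≤ p e) (hp1 : ∀ e, p e ≤ 1) (hq : 1 ≤ q) (hq2 : q ≤ 2)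
    {E : Finset ι} {f : ι} (hf : f ∉ E) (F : Finset ι) :
    S φ p q (insert f E) (lw φ q F) ≤ S φ p q E (lw φ q F) := by
  rw [S_insert hq hf]
  have h1 : S φ p q E (fun ω => theta φ q f ω * lw φ q F (insert f ω)) ≤
      S φ p q E (lw φ q F) := by
    refine S_mono hp hp1 hq E fun ω => ?_
    have h2 : theta φ q f ω ≤ 1 := by
      unfold theta; split_ifs
      · exact le_rfl
      · exact inv_le_one_of_one_le₀ hq
    have h3 : lw φ q F (insert f ω) ≤ lw φ q F ω := lw_anti hq hq2 F (subset_insert _ _)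
    have h4 := mul_le_mul h2 h3 (lw_pos hq F _).le zero_le_one
    linarith
  have h5 := mul_le_mul_of_nonneg_left h1 (hp f)
  linarith

/-- ending rate: a ghost edge `f = v g` -/
lemma TW_ghost (hp : ∀ e, 0 ≤ p e) (hp1 : ∀ e, p e ≤ 1) (hq : 1 ≤ q) (hq2 : q ≤ 2) {g : V}
    {E T F : Finset ι} (hFT : F ⊆ T) {f : ι} (hf : f ∈ E \ T) (v : V) :
    (p f / 2) * TW φ p q g E T F v ≤ TW φ p q g E (insert f T) (insert f F) g := by
  have hfT : f ∉ T := (mem_sdiff.mp hf).2
  have hfF : f ∉ F := fun h => hfT (hFT h)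
  have h2 : insert f T \ insert f F = T \ F := by
    ext x
    simp only [mem_sdiff, mem_insert, not_or]
    constructor
    · rintro ⟨h | h, h3, h4⟩
      · exact absurd h h3
      · exact ⟨h, h4⟩
    · rintro ⟨h, h3⟩
      exact ⟨Or.inr h, fun h4 => hfT (h4 ▸ h), h3⟩
  unfold TW
  rw [h2, Finset.prod_insert hfF]
  have h3 : S φ p q (E \ T) (fun ω => lw φ q F ω * ind φ v g ω) ≤
      S φ p q (E \ insert f T) (fun ω => lw φ q (insert f F) ω * ind φ g g ω) := by
    calc S φ p q (E \ T) (fun ω => lw φ q F ω * ind φ v g ω)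
        ≤ S φ p q (E \ T) (lw φ q F) := by
          refine S_mono hp hp1 hq _ fun ω => ?_
          have := mul_le_mul_of_nonneg_left (ind_le_one (φ := φ) v g ω) (lw_pos (φ := φ) hq F ω).le
          linarith
      _ ≤ S φ p q (E \ insert f T) (lw φ q F) := by
          rw [sdiff_insert_eq hf]
          exact S_lw_insert_le hp hp1 hq hq2 not_mem_sdiff_insert F
      _ ≤ _ := by
          refine S_mono hp hp1 hq _ fun ω => ?_
          rw [ind_self, mul_one]
          exact lw_mono_left hq hq2 (subset_insert _ _) ω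
  have h4 : 0 ≤ ∏ e ∈ F, (p e / 2) := prod_nonneg fun e _ => by have := hp e; linarith
  have h5 : 0 ≤ ∏ e ∈ T \ F, (1 - p e) := prod_nonneg fun e _ => by have := hp1 e; linarith
  have h6 : 0 ≤ p f / 2 := by have := hp f; linarith
  have h7 := mul_le_mul_of_nonneg_left h3 (mul_nonneg h6 (mul_nonneg h4 h5))
  linarith

end Pool.Agent.Helper63.UNR
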